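import Pool.Agent.Helper20.RL.St1
import Pool.Agent.Helper4.LM.M_BBC
import Pool.Agent.Helper29.LM.M_PH
import Pool.Agent.Helper80.LM.M_FA
import Pool.Agent.Helper84.LM.M_FS

/-!
# Project RL, module LLG: square function bound for the local density
-/

set_option autoImplicit false

open MeasureTheory Set Filter Topology
open scoped ENNReal RealInnerProductSpace FourierTransform

namespace Pool.Agent.Helper42.RL

open Pool.Agent.Helper68.LM (Pl BB Bd Av HL ft fm DQ StBBC StFA StFS)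
open Pool.Agent.Helper20.RG Pool.Agent.Helper20.RL

theorem aBBC : StBBC := Pool.Agent.Helper4.LM.hBBC Pool.Agent.Helper29.LM.hPH

theorem aFA : StFA := Pool.Agent.Helper80.LM.hFA

theorem aFS : StFS := Pool.Agent.Helper84.LM.hFS Pool.Agent.Helper29.LM.hPH

theorem hLLG (hMEA : StMEA) (hL2B : StL2B) (hLLF : StLLF) : StLLG := by
  obtain ⟨C, hC1, hC⟩ := hLLF
  obtain ⟨⟨hb, hb1, hbf⟩, hsg, hsf⟩ := hMEA
  refine ⟨C, hC1, fun u s ν a i f hs hν hia hcnt hf => ?_⟩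
  have hBB := aBBC.2.2.1
  have h2 : (0 : ℝ) < 2 := two_pos
  have hr : (0 : ℝ) < 8 * (2 : ℝ) ^ a := by positivity
  have hg1 : BB (Av bx 2 f) := hBB bx 1 1 _ f hb h2.le hf
  have hg2 : BB (fun y => f y - Av bx 2 f y) := aBBC.1 f _ hf hg1
  have hg3 : ∀ j < 2 ^ u, BB (Av (sg (s j)) (8 * (2 : ℝ) ^ a) (fun y => f y - Av bx 2 f y)) :=
    fun j hj => hBB (sg (s j)) 1 1 _ _ (hsg (s j) (hs j hj)).1 hr.le hg2
  refine ⟨hg3, ?_⟩
  have hft : ∀ j < 2 ^ u, ∀ ξ : Pl,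
      ft (Av (sg (s j)) (8 * (2 : ℝ) ^ a) (fun y => f y - Av bx 2 f y)) ξ =
        ((Real.sinc (8 * Real.pi * (2 : ℝ) ^ a * ⟪E (s j), ξ⟫) *
          (1 - Real.sinc (2 * Real.pi * ξ 0) * Real.sinc (2 * Real.pi * ξ 1)) : ℝ) : ℂ) * ft f ξ := by
    intro j hj ξ
    rw [aFA (sg (s j)) 1 1 _ _ (hsg (s j) (hs j hj)).1 hr hg2 ξ, hsf,
      aFS.2.2.2 f _ hf hg1 ξ, aFA bx 1 1 _ _ hb h2 hf ξ, hbf]
    have e1 : Real.pi * ⟪E (s j), (8 * (2 : ℝ) ^ a) • ξ⟫ =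
        8 * Real.pi * (2 : ℝ) ^ a * ⟪E (s j), ξ⟫ := by
      rw [real_inner_smul_right]
      ring
    have e2 : ∀ l : Fin 2, Real.pi * ((2 : ℝ) • ξ) l = 2 * Real.pi * ξ l := by
      intro l
      rw [PiLp.smul_apply, smul_eq_mul]
      ring
    rw [e1, e2 0, e2 1]
    push_cast
    ring
  have hfin := hL2B.2 (2 ^ u)
    (fun j => Av (sg (s j)) (8 * (2 : ℝ) ^ a) (fun y => f y - Av bx 2 f y))
    (fun j ξ => ((Real.sinc (8 * Real.pi * (2 : ℝ) ^ a * ⟪E (s j), ξ⟫) *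
          (1 - Real.sinc (2 * Real.pi * ξ 0) * Real.sinc (2 * Real.pi * ξ 1)) : ℝ) : ℂ))
    f (C * ν) hf (by positivity)
    (fun j hj => ⟨hg3 j hj, hft j hj⟩) ?_
  · exact hfin
  · intro ξ _
    have := hC u s ν a i ξ hs hν hia hcnt
    refine le_trans (le_of_eq ?_) this
    refine Finset.sum_congr rfl fun j _ => ?_
    rw [Complex.norm_real, Real.norm_eq_abs, sq_abs]

end Pool.Agent.Helper42.RL
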